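import Mathlib

/-!
# MP_7df46e_an, Q1: the set of points with dense orbit under `R` is comeagre
-/

namespace Pool.Agent.Results.MP_7df46e_an.ComeagreDenseOrbits

open Set Topology Filter

/-- The binary sequence `b` contains infinitely many `1`s (i.e. is not eventually `0`). -/
def InfOnes (b : ℕ → Bool) : Prop := ∀ n, ∃ k ≥ n, b k = true

/-- The value of a binary sequence. Digits are indexed from `0`, so the index `k` is the
position `k + 1` and the value is `∑ b_k 2^{-(k+1)}`. -/
noncomputable def val (b : ℕ → Bool) : ℝ := ∑' k, (if b k = true then (1 : ℝ) else 0) * (1 / 2) ^ (k + 1)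

/-- The binary expansion of `x ∈ (0,1]` that is not eventually `0`
(it exists and is unique, see `existsUnique_expansion`). -/
noncomputable def beta (x : ℝ) : ℕ → Bool := Classical.epsilon fun b => InfOnes b ∧ val b = x

/-- The substitution `ρ`. `Nat.nth (b · = true) j` is the index of the `(j+1)`-st symbol `1` of
`b`; the symbol `1` at index `k`, i.e. at position `k + 1`, becomes `1` if the position `k + 1` is
even (`k` odd) and `0` if the position `k + 1` is odd (`k` even); all zeros are deleted. -/
noncomputable def rho (b : ℕ → Bool) : ℕ → Bool :=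
  fun j => decide (Nat.nth (fun k => b k = true) j % 2 = 1)

/-! ### values of binary sequences -/

lemma summable_val (b : ℕ → Bool) :
    Summable fun k => (if b k = true then (1 : ℝ) else 0) * (1 / 2) ^ (k + 1) := by
  have h : Summable fun k : ℕ => (1 / 2 : ℝ) ^ (k + 1) :=
    (summable_geometric_of_lt_one (by norm_num) (by norm_num)).comp_injective (add_left_injective 1)
  refine Summable.of_nonneg_of_le (fun k => ?_) (fun k => ?_) h
  · split_ifs <;> positivity
  · split_ifs
    · simp
    · simp

lemma val_succ (b : ℕ → Bool) :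
    val b = ((if b 0 = true then (1 : ℝ) else 0) + val (fun n => b (n + 1))) / 2 := by
  unfold val
  rw [(summable_val b).tsum_eq_zero_add, add_div, ← tsum_div_const]
  congr 1
  · simp
    split_ifs <;> norm_num
  · refine tsum_congr fun k => ?_
    rw [pow_succ _ (k + 1)]
    ring

lemma val_nonneg (b : ℕ → Bool) : 0 ≤ val b := by
  refine tsum_nonneg fun k => ?_
  split_ifs <;> positivity

lemma val_le_one (b : ℕ → Bool) : val b ≤ 1 := by
  have h : HasSum (fun k : ℕ => (1 / 2 : ℝ) ^ (k + 1)) 1 := by
    have := hasSum_geometric_two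
    have h2 : HasSum (fun k : ℕ => (1 / 2 : ℝ) ^ k * (1 / 2)) (2 * (1 / 2)) := this.mul_right _
    simpa [pow_succ] using h2
  have h2 : val b ≤ ∑' k : ℕ, (1 / 2 : ℝ) ^ (k + 1) := by
    refine (summable_val b).tsum_le_tsum (fun k => ?_) h.summable
    split_ifs
    · simp
    · simp
  rwa [h.tsum_eq] at h2

lemma InfOnes.tail {b : ℕ → Bool} (hb : InfOnes b) : InfOnes (fun n => b (n + 1)) := by
  intro n
  obtain ⟨k, hk, hbk⟩ := hb (n + 1)
  refine ⟨k - 1, by omega, ?_⟩
  show b (k - 1 + 1) = true
  rwa [Nat.sub_add_cancel (by omega)]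

lemma val_pos {b : ℕ → Bool} (hb : InfOnes b) : 0 < val b := by
  obtain ⟨k, -, hk⟩ := hb 0
  have h1 : (if b k = true then (1 : ℝ) else 0) * (1 / 2) ^ (k + 1) ≤ val b :=
    (summable_val b).le_tsum k (fun j _ => by split_ifs <;> positivity)
  refine lt_of_lt_of_le ?_ h1
  rw [if_pos hk]
  positivity

lemma head_eq {b : ℕ → Bool} (hb : InfOnes b) : b 0 = true ↔ 1 / 2 < val b := by
  have h1 := val_succ b
  have h2 := val_pos hb.tail
  have h3 := val_le_one (fun n => b (n + 1))
  constructor
  · intro h
    rw [if_pos h] at h1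
    linarith
  · intro h
    by_contra h4
    rw [if_neg h4] at h1
    linarith

lemma val_inj {b b' : ℕ → Bool} (hb : InfOnes b) (hb' : InfOnes b') (h : val b = val b') :
    b = b' := by
  have key : ∀ n (b b' : ℕ → Bool), InfOnes b → InfOnes b' → val b = val b' → b n = b' n := by
    intro n
    induction n with
    | zero =>
      intro b b' hb hb' h
      have h1 : b 0 = true ↔ b' 0 = true := by rw [head_eq hb, head_eq hb', h]
      exact Bool.eq_iff_iff.2 h1
    | succ n ih =>
      intro b b' hb hb' h
      have h0 : b 0 = b' 0 := by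
        have h1 : b 0 = true ↔ b' 0 = true := by rw [head_eq hb, head_eq hb', h]
        exact Bool.eq_iff_iff.2 h1
      have h1 := val_succ b
      have h2 := val_succ b'
      rw [h0] at h1
      exact ih _ _ hb.tail hb'.tail (by linarith)
  funext n
  exact key n b b' hb hb' h

/-- the doubling map generating the expansion -/
noncomputable def dbl (x : ℝ) : ℝ := 2 * x - (if 1 / 2 < x then 1 else 0)

lemma dbl_mem {x : ℝ} (hx : x ∈ Ioc (0 : ℝ) 1) : dbl x ∈ Ioc (0 : ℝ) 1 := by
  unfold dbl
  split_ifs with h
  · exact ⟨by linarith, by linarith [hx.2]⟩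
  · exact ⟨by linarith [hx.1], by linarith⟩

lemma dbl_iter_mem {x : ℝ} (hx : x ∈ Ioc (0 : ℝ) 1) (n : ℕ) : dbl^[n] x ∈ Ioc (0 : ℝ) 1 := by
  induction n with
  | zero => exact hx
  | succ n ih => rw [Function.iterate_succ_apply']; exact dbl_mem ih

/-- the digits -/
noncomputable def dig (x : ℝ) : ℕ → Bool := fun k => decide (1 / 2 < dbl^[k] x)

lemma dig_tail (x : ℝ) : (fun n => dig x (n + 1)) = dig (dbl x) := by
  funext n
  exact Bool.eq_iff_iff.2 (by simp [dig, Function.iterate_succ_apply])

lemma val_dig_approx (n : ℕ) : ∀ x ∈ Ioc (0 : ℝ) 1, |val (dig x) - x| ≤ (1 / 2) ^ n := by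
  induction n with
  | zero =>
    intro x hx
    have h1 := val_nonneg (dig x)
    have h2 := val_le_one (dig x)
    rw [pow_zero, abs_le]
    constructor <;> linarith [hx.1, hx.2]
  | succ n ih =>
    intro x hx
    have h1 := ih (dbl x) (dbl_mem hx)
    rw [val_succ, dig_tail]
    have h2 : (if dig x 0 = true then (1 : ℝ) else 0) = if 1 / 2 < x then 1 else 0 := by
      simp [dig]
    rw [h2]
    have h3 : ((if 1 / 2 < x then (1 : ℝ) else 0) + val (dig (dbl x))) / 2 - x =
        (val (dig (dbl x)) - dbl x) / 2 := by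
      unfold dbl; ring
    rw [h3, abs_div, abs_two, pow_succ]
    linarith

lemma val_dig {x : ℝ} (hx : x ∈ Ioc (0 : ℝ) 1) : val (dig x) = x := by
  have h1 : Tendsto (fun n : ℕ => (1 / 2 : ℝ) ^ n) atTop (𝓝 0) :=
    tendsto_pow_atTop_nhds_zero_of_lt_one (by norm_num) (by norm_num)
  have h2 : |val (dig x) - x| ≤ 0 := ge_of_tendsto' h1 fun n => val_dig_approx n x hx
  have h3 := abs_nonpos_iff.1 h2
  linarith

lemma infOnes_dig {x : ℝ} (hx : x ∈ Ioc (0 : ℝ) 1) : InfOnes (dig x) := by
  intro n
  by_contra hcon
  push Not at hcon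
  have h0 := dbl_iter_mem hx n
  have h1 : ∀ j, (dbl^[n + j] x) = 2 ^ j * dbl^[n] x := by
    intro j
    induction j with
    | zero => simp
    | succ j ih =>
      have h2 : ¬ (1 / 2 < dbl^[n + j] x) := by
        have := hcon (n + j) (by omega)
        simpa [dig] using this
      rw [show n + (j + 1) = (n + j) + 1 by omega, Function.iterate_succ_apply']
      have h3 : dbl (dbl^[n + j] x) =
          2 * (dbl^[n + j] x) - (if 1 / 2 < dbl^[n + j] x then 1 else 0) := rfl
      rw [h3, if_neg h2, ih, pow_succ]
      ring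
  obtain ⟨j, hj⟩ := pow_unbounded_of_one_lt (1 / (dbl^[n] x)) (by norm_num : (1 : ℝ) < 2)
  have h3 := (dbl_iter_mem hx (n + j)).2
  rw [h1] at h3
  rw [div_lt_iff₀ h0.1] at hj
  linarith

/-- The expansion used in `beta` exists and is unique. -/
lemma existsUnique_expansion {x : ℝ} (hx : x ∈ Ioc (0 : ℝ) 1) :
    ∃! b : ℕ → Bool, InfOnes b ∧ val b = x :=
  ⟨dig x, ⟨infOnes_dig hx, val_dig hx⟩, fun b' hb' =>
    val_inj hb'.1 (infOnes_dig hx) (hb'.2.trans (val_dig hx).symm)⟩

lemma beta_spec {x : ℝ} (hx : x ∈ Ioc (0 : ℝ) 1) : InfOnes (beta x) ∧ val (beta x) = x :=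
  Classical.epsilon_spec (p := fun b => InfOnes b ∧ val b = x) ⟨dig x, infOnes_dig hx, val_dig hx⟩

lemma beta_val {b : ℕ → Bool} (hb : InfOnes b) : beta (val b) = b := by
  have h := beta_spec (x := val b) ⟨val_pos hb, val_le_one b⟩
  exact val_inj h.1 hb h.2

/-- The map `R` on `[0,1]`. -/
noncomputable def R (x : unitInterval) : unitInterval :=
  if x = 0 then ⟨2 / 3, by norm_num, by norm_num⟩
  else ⟨val (rho (beta (x : ℝ))), val_nonneg _, val_le_one _⟩

/-- The set of points with dense forward orbit. -/
def E : Set unitInterval := {x | Dense {y | ∃ n : ℕ, R^[n] x = y}}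

lemma val_close (n : ℕ) : ∀ b b' : ℕ → Bool, (∀ i < n, b i = b' i) →
    |val b - val b'| ≤ (1 / 2) ^ n := by
  induction n with
  | zero =>
    intro b b' _hb
    have h1 := val_nonneg b
    have h2 := val_le_one b
    have h3 := val_nonneg b'
    have h4 := val_le_one b'
    rw [pow_zero, abs_le]
    constructor <;> linarith
  | succ n ih =>
    intro b b' h
    have h1 := ih (fun n => b (n + 1)) (fun n => b' (n + 1)) (fun i hi => h (i + 1) (by omega))
    rw [val_succ b, val_succ b', h 0 (by omega)]
    have h3 : ((if b' 0 = true then (1 : ℝ) else 0) + val fun n => b (n + 1)) / 2 -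
        ((if b' 0 = true then (1 : ℝ) else 0) + val fun n => b' (n + 1)) / 2 =
        ((val fun n => b (n + 1)) - val fun n => b' (n + 1)) / 2 := by ring
    rw [h3, abs_div, abs_two, pow_succ]
    linarith

/-! ### words -/

/-- the prefix of length `n` -/
def pre (b : ℕ → Bool) (n : ℕ) : List Bool := (List.range n).map b

lemma pre_succ (b : ℕ → Bool) (n : ℕ) : pre b (n + 1) = pre b n ++ [b n] := by
  simp [pre, List.range_succ]

lemma length_pre (b : ℕ → Bool) (n : ℕ) : (pre b n).length = n := by simp [pre]

lemma pre_succ' (b : ℕ → Bool) (n : ℕ) : pre b (n + 1) = b 0 :: pre (fun n => b (n + 1)) n := by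
  simp only [pre, List.range_succ_eq_map, List.map_cons, List.map_map]
  rfl

/-- the substitution on words, with offset `n` -/
def rhoA : ℕ → List Bool → List Bool
  | _, [] => []
  | n, true :: l => decide (n % 2 = 1) :: rhoA (n + 1) l
  | n, false :: l => rhoA (n + 1) l

/-- the substitution on words -/
def rhoW (l : List Bool) : List Bool := rhoA 0 l

lemma rhoA_append (l l' : List Bool) : ∀ n, rhoA n (l ++ l') = rhoA n l ++ rhoA (n + l.length) l' := by
  induction l with
  | nil => intro n; simp [rhoA]
  | cons s l ih =>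
    intro n
    cases s with
    | true => simp only [List.cons_append, rhoA, ih, List.length_cons]; rw [show n + 1 + l.length = n + (l.length + 1) by omega]
    | false => simp only [List.cons_append, rhoA, ih, List.length_cons]; rw [show n + 1 + l.length = n + (l.length + 1) by omega]

lemma rhoW_append (l l' : List Bool) : rhoW (l ++ l') = rhoW l ++ rhoA l.length l' := by
  unfold rhoW; rw [rhoA_append, zero_add]

lemma length_rhoA (l : List Bool) : ∀ n, (rhoA n l).length = l.count true := by
  induction l with
  | nil => intro n; simp [rhoA]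
  | cons s l ih => intro n; cases s <;> simp [rhoA, ih]

lemma rhoW_pre (b : ℕ → Bool) (n : ℕ) :
    rhoW (pre b n) = pre (rho b) (Nat.count (fun k => b k = true) n) := by
  induction n with
  | zero => simp [pre, rhoW, rhoA]
  | succ n ih =>
    rw [pre_succ, rhoW_append, ih, length_pre, Nat.count_succ]
    cases hb : b n with
    | true =>
      simp only [rhoA, if_true]
      rw [pre_succ]
      congr 2
      unfold rho
      rw [Nat.nth_count hb]
    | false => simp [rhoA]

lemma rhoW_iter_pre (k : ℕ) : ∀ (b : ℕ → Bool) (n : ℕ),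
    ∃ N, rhoW^[k] (pre b n) = pre (rho^[k] b) N := by
  induction k with
  | zero => intro b n; exact ⟨n, rfl⟩
  | succ k ih =>
    intro b n
    rw [Function.iterate_succ_apply, Function.iterate_succ_apply, rhoW_pre]
    exact ih _ _

/-- extension by one letter -/
lemma ext_letter (m : ℕ) (s : Bool) : ∃ u : List Bool, rhoA m u = [s] := by
  by_cases h : decide (m % 2 = 1) = s
  · exact ⟨[true], by simp [rhoA, h]⟩
  · refine ⟨[false, true], ?_⟩
    simp only [rhoA]
    congr 1
    rcases Nat.mod_two_eq_zero_or_one m with h1 | h1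
    · have h2 : (m + 1) % 2 = 1 := by omega
      cases s <;> simp_all
    · have h2 : (m + 1) % 2 = 0 := by omega
      cases s <;> simp_all

lemma ext_word (v : List Bool) : ∀ w : List Bool, ∃ u, rhoW (w ++ u) = rhoW w ++ v := by
  induction v with
  | nil => intro w; exact ⟨[], by simp⟩
  | cons s v ih =>
    intro w
    obtain ⟨u, hu⟩ := ext_letter w.length s
    obtain ⟨u', hu'⟩ := ih (w ++ u)
    refine ⟨u ++ u', ?_⟩
    rw [← List.append_assoc, hu', rhoW_append, hu]
    simp

lemma ext_iter (k : ℕ) : ∀ v w : List Bool, ∃ u, rhoW^[k] (w ++ u) = rhoW^[k] w ++ v := by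
  induction k with
  | zero => intro v w; exact ⟨v, rfl⟩
  | succ k ih =>
    intro v w
    obtain ⟨u', hu'⟩ := ih v (rhoW w)
    obtain ⟨u, hu⟩ := ext_word u' w
    refine ⟨u, ?_⟩
    rw [Function.iterate_succ_apply, hu, hu', Function.iterate_succ_apply]

/-- the number of ones in the image of a constant word -/
lemma count_rhoA_replicate (n : ℕ) : ∀ m, 2 * (rhoA m (List.replicate n true)).count true ≤ n + 1 ∧
    (m % 2 = 0 → 2 * (rhoA m (List.replicate n true)).count true ≤ n) := by
  induction n with
  | zero => intro m; simp [rhoA]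
  | succ n ih =>
    intro m
    rw [List.replicate_succ]
    simp only [rhoA, List.count_cons]
    obtain ⟨h1, h2⟩ := ih (m + 1)
    rcases Nat.mod_two_eq_zero_or_one m with h3 | h3
    · have h4 : (decide (m % 2 = 1) == true) = false := by simp [h3]
      simp only [h4]
      constructor
      · simp; omega
      · intro _; simp; omega
    · have h5 := h2 (by omega)
      have h4 : (decide (m % 2 = 1) == true) = true := by simp [h3]
      simp only [h4]
      constructor
      · simp; omega
      · intro h6; omega

lemma shrink (w : List Bool) (hw : w ≠ []) : (rhoW (rhoW w)).length < w.length := by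
  have h1 : (rhoW (rhoW w)).length = (rhoW w).count true := length_rhoA _ _
  have h2 : (rhoW w).length = w.count true := length_rhoA _ _
  have h3 : (rhoW w).count true ≤ (rhoW w).length := List.count_le_length
  have h4 : w.count true ≤ w.length := List.count_le_length
  have h5 : 0 < w.length := List.length_pos_iff.2 hw
  rcases Nat.lt_or_ge (w.count true) w.length with h | h
  · omega
  · have h6 : w.count true = w.length := le_antisymm h4 h
    have h7 : w = List.replicate w.length true := by
      have := List.count_eq_length.1 h6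
      exact List.eq_replicate_iff.2 ⟨rfl, fun b hb => (this b hb).symm⟩
    have h8 := (count_rhoA_replicate w.length 0).2 rfl
    have h9 : (rhoW w).count true = (rhoA 0 (List.replicate w.length true)).count true := by
      unfold rhoW
      rw [← h7]
    omega

lemma exists_iter_nil (n : ℕ) : ∀ w : List Bool, w.length ≤ n → ∃ k, rhoW^[k] w = [] := by
  induction n with
  | zero =>
    intro w hw
    have h : w = [] := List.length_eq_zero_iff.1 (by omega)
    exact ⟨0, h⟩
  | succ n ih =>
    intro w hw
    by_cases h : w = []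
    · exact ⟨0, h⟩
    · obtain ⟨k, hk⟩ := ih (rhoW (rhoW w)) (by have := shrink w h; omega)
      exact ⟨k + 2, by rw [Function.iterate_add_apply]; exact hk⟩

/-! ### intervals of words -/

/-- the open dyadic interval of a word -/
def J : List Bool → Set ℝ
  | [] => Ioo 0 1
  | s :: l => {x | 2 * x - (if s = true then 1 else 0) ∈ J l}

lemma isOpen_J (l : List Bool) : IsOpen (J l) := by
  induction l with
  | nil => exact isOpen_Ioo
  | cons s l ih =>
    exact ih.preimage (by fun_prop : Continuous fun x : ℝ => 2 * x - (if s = true then 1 else 0))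

lemma nonempty_J (l : List Bool) : (J l).Nonempty := by
  induction l with
  | nil => exact ⟨1 / 2, by norm_num, by norm_num⟩
  | cons s l ih =>
    obtain ⟨y, hy⟩ := ih
    refine ⟨(y + (if s = true then 1 else 0)) / 2, ?_⟩
    show 2 * ((y + (if s = true then 1 else 0)) / 2) - (if s = true then 1 else 0) ∈ J l
    have : 2 * ((y + (if s = true then 1 else 0)) / 2) - (if s = true then 1 else 0) = y := by ring
    rw [this]; exact hy

lemma J_sub (l : List Bool) : J l ⊆ Ioo 0 1 := by
  induction l with
  | nil => exact Subset.rfl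
  | cons s l ih =>
    intro x hx
    have h := ih hx
    cases s with
    | true => simp only [if_true, mem_Ioo] at h; exact ⟨by linarith, by linarith⟩
    | false => simp only [Bool.false_eq_true, if_false, mem_Ioo] at h; exact ⟨by linarith, by linarith⟩

lemma J_pre (l : List Bool) : ∀ x ∈ J l, pre (beta x) l.length = l := by
  induction l with
  | nil => intro x _; simp [pre]
  | cons s l ih =>
    intro x hx
    have hx01 := J_sub _ hx
    obtain ⟨h1, h2⟩ := beta_spec (x := x) ⟨hx01.1, hx01.2.le⟩
    have hy : 2 * x - (if s = true then 1 else 0) ∈ J l := hx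
    have hy01 := J_sub _ hy
    have h0 : beta x 0 = s := by
      have h3 := head_eq h1
      rw [h2] at h3
      cases s with
      | true => simp only [if_true, mem_Ioo] at hy01; exact h3.2 (by linarith)
      | false =>
        simp only [Bool.false_eq_true, if_false, mem_Ioo] at hy01
        by_contra h4
        have h5 : beta x 0 = true := by simpa using h4
        linarith [h3.1 h5]
    have h4 : beta (2 * x - (if s = true then 1 else 0)) = fun n => beta x (n + 1) := by
      have h5 := val_succ (beta x)
      rw [h2, h0] at h5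
      have h6 : 2 * x - (if s = true then 1 else 0) = val (fun n => beta x (n + 1)) := by linarith
      rw [h6]
      exact beta_val h1.tail
    rw [List.length_cons, pre_succ', h0, ← h4, ih _ hy]

/-- near any point there is a dyadic interval -/
lemma exists_word_near {O : Set unitInterval} (hO : IsOpen O) (hne : O.Nonempty) :
    ∃ x : unitInterval, (x : ℝ) ∈ Ioc (0 : ℝ) 1 ∧ ∃ n : ℕ, ∀ y : unitInterval,
      |(y : ℝ) - x| ≤ (1 / 2) ^ n → y ∈ O := by
  obtain ⟨x, hxO, hx0⟩ : ∃ x ∈ O, (x : ℝ) ≠ 0 := by
    obtain ⟨x, hx⟩ := hne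
    by_cases h : (x : ℝ) = 0
    · obtain ⟨ε, hε, hball⟩ := Metric.isOpen_iff.1 hO x hx
      have hm : min (ε / 2) 1 ∈ Icc (0 : ℝ) 1 := ⟨by positivity, min_le_right _ _⟩
      refine ⟨⟨min (ε / 2) 1, hm⟩, hball ?_, ?_⟩
      · rw [Metric.mem_ball, Subtype.dist_eq, Real.dist_eq]
        change |min (ε / 2) 1 - (x : ℝ)| < ε
        rw [h, sub_zero, abs_of_nonneg hm.1]
        exact lt_of_le_of_lt (min_le_left _ _) (by linarith)
      · exact (by positivity : (0 : ℝ) < min (ε / 2) 1).ne'
    · exact ⟨x, hx, h⟩
  obtain ⟨ε, hε, hball⟩ := Metric.isOpen_iff.1 hO x hxO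
  obtain ⟨n, hn⟩ := exists_pow_lt_of_lt_one hε (by norm_num : (1 / 2 : ℝ) < 1)
  refine ⟨x, ⟨lt_of_le_of_ne x.2.1 (Ne.symm hx0), x.2.2⟩, n, fun y hy => hball ?_⟩
  rw [Metric.mem_ball, Subtype.dist_eq, Real.dist_eq]
  exact lt_of_le_of_lt hy hn

lemma pre_eq_iff {b b' : ℕ → Bool} {n : ℕ} (h : pre b n = pre b' n) : ∀ i < n, b i = b' i := by
  intro i hi
  have h1 : (pre b n)[i]'(by rw [length_pre]; exact hi) = (pre b' n)[i]'(by rw [length_pre]; exact hi) := by
    simp only [h]
  simpa [pre] using h1

lemma pre_prefix_eq {b : ℕ → Bool} {N : ℕ} {v : List Bool} (h : v <+: pre b N) :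
    pre b v.length = v := by
  have h1 : v = (pre b N).take v.length := List.prefix_iff_eq_take.1 h
  have h2 : v.length ≤ N := by
    have := h.length_le
    rwa [length_pre] at this
  rw [h1]
  simp only [List.length_take, length_pre, min_eq_left h2]
  unfold pre
  rw [← List.map_take, List.take_range, min_eq_left h2]

lemma residual_of_good {Good : List Bool → Prop} (hG : ∀ w, ∃ u, Good (w ++ u)) :
    {x : unitInterval | ∃ z, Good z ∧ (x : ℝ) ∈ J z} ∈ residual unitInterval := by
  have hopen : IsOpen {x : unitInterval | ∃ z, Good z ∧ (x : ℝ) ∈ J z} := by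
    have : {x : unitInterval | ∃ z, Good z ∧ (x : ℝ) ∈ J z} =
        ⋃ z, ⋃ (_ : Good z), (fun x : unitInterval => (x : ℝ)) ⁻¹' J z := by
      ext x; simp
    rw [this]
    exact isOpen_iUnion fun z => isOpen_iUnion fun _ => (isOpen_J z).preimage continuous_subtype_val
  refine residual_of_dense_open hopen ?_
  refine dense_iff_inter_open.2 fun O hO hne => ?_
  obtain ⟨x, hx, n, hn⟩ := exists_word_near hO hne
  obtain ⟨u, hu⟩ := hG (pre (beta x) n)
  obtain ⟨y, hy⟩ := nonempty_J (pre (beta x) n ++ u)
  have hy01 := J_sub _ hy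
  refine ⟨⟨y, hy01.1.le, hy01.2.le⟩, hn _ ?_, _, hu, hy⟩
  have h1 := J_pre _ y hy
  have h2 : pre (beta y) n = pre (beta x) n := by
    have h3 : (pre (beta x) n) <+: pre (beta y) (pre (beta x) n ++ u).length := by
      rw [h1]; exact List.prefix_append _ _
    have h4 := pre_prefix_eq h3
    rwa [length_pre] at h4
  have h5 := val_close n _ _ (pre_eq_iff h2)
  rw [(beta_spec (x := y) ⟨hy01.1, hy01.2.le⟩).2, (beta_spec hx).2] at h5
  exact h5

lemma count_pre_le (b : ℕ → Bool) (n N : ℕ) (h : ∀ k ≥ n, b k ≠ true) :
    (pre b N).count true ≤ n := by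
  induction N with
  | zero => simp [pre]
  | succ N ih =>
    rw [pre_succ, List.count_append]
    rcases Nat.lt_or_ge N n with h1 | h1
    · have h2 : (pre b N).count true ≤ N := by
        have := List.count_le_length (a := true) (l := pre b N)
        rwa [length_pre] at this
      have h3 : [b N].count true ≤ 1 := by
        have := List.count_le_length (a := true) (l := [b N])
        simpa using this
      omega
    · have h2 := h N h1
      have h3 : [b N].count true = 0 := by
        simp [h2]
      omega

/-- **Q1: the set `E` is comeagre (in particular of second category).** -/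
theorem result : IsMeagre (Eᶜ) ∧ ¬ IsMeagre E := by
  have hres : E ∈ residual unitInterval := by
    have h1 : ∀ k m : ℕ, {x : unitInterval | ∃ z, (m ≤ (rhoW^[k] z).count true) ∧ (x : ℝ) ∈ J z} ∈
        residual unitInterval := by
      intro k m
      refine residual_of_good (Good := fun z => m ≤ (rhoW^[k] z).count true) fun w => ?_
      obtain ⟨u, hu⟩ := ext_iter k (List.replicate m true) w
      refine ⟨u, ?_⟩
      rw [hu, List.count_append, List.count_replicate_self]
      omega
    have h2 : ∀ v : List Bool, {x : unitInterval | ∃ z, (∃ k, v <+: rhoW^[k] z) ∧ (x : ℝ) ∈ J z} ∈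
        residual unitInterval := by
      intro v
      refine residual_of_good (Good := fun z => ∃ k, v <+: rhoW^[k] z) fun w => ?_
      obtain ⟨k, hk⟩ := exists_iter_nil w.length w le_rfl
      obtain ⟨u, hu⟩ := ext_iter k v w
      exact ⟨u, k, by rw [hu, hk, List.nil_append]⟩
    have h3 := countable_iInter_mem.2 fun k => countable_iInter_mem.2 (h1 k)
    have h4 := countable_iInter_mem.2 h2
    refine mem_of_superset (inter_mem h3 h4) ?_
    rintro x ⟨hx1, hx2⟩
    rw [mem_iInter] at hx1
    have hx1' : ∀ k m : ℕ, ∃ z, (m ≤ (rhoW^[k] z).count true) ∧ (x : ℝ) ∈ J z := fun k m =>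
      mem_iInter.1 (hx1 k) m
    have hx2' : ∀ v : List Bool, ∃ z, (∃ k, v <+: rhoW^[k] z) ∧ (x : ℝ) ∈ J z := fun v =>
      mem_iInter.1 hx2 v
    have hx01 : (x : ℝ) ∈ Ioo (0 : ℝ) 1 := by
      obtain ⟨z, -, hz⟩ := hx1' 0 0
      exact J_sub z hz
    set b := beta (x : ℝ) with hb
    -- all iterates have infinitely many ones
    have hinf : ∀ k, InfOnes (rho^[k] b) := by
      intro k n
      by_contra hcon
      push Not at hcon
      obtain ⟨z, hz, hxz⟩ := hx1' k (n + 1)
      have h5 := J_pre z x hxz
      obtain ⟨N, hN⟩ := rhoW_iter_pre k b z.length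
      rw [← hb] at h5
      rw [h5] at hN
      rw [hN] at hz
      have h6 := count_pre_le (rho^[k] b) n N hcon
      omega
    have hR : ∀ k, ((R^[k] x : unitInterval) : ℝ) = val (rho^[k] b) := by
      intro k
      induction k with
      | zero => exact (beta_spec (x := (x : ℝ)) ⟨hx01.1, hx01.2.le⟩).2.symm
      | succ k ih =>
        rw [Function.iterate_succ_apply', Function.iterate_succ_apply']
        have h5 : (R^[k] x) ≠ 0 := by
          intro h6
          have h7 := val_pos (hinf k)
          rw [← ih, h6] at h7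
          simp at h7
        unfold R at h5 ⊢
        rw [if_neg h5]
        change val (rho (beta ((R^[k] x : unitInterval) : ℝ))) = _
        rw [ih, beta_val (hinf k)]
    refine dense_iff_inter_open.2 fun O hO hne => ?_
    obtain ⟨y, hy, n, hn⟩ := exists_word_near hO hne
    obtain ⟨z, ⟨k, hk⟩, hxz⟩ := hx2' (pre (beta y) n)
    refine ⟨R^[k] x, hn _ ?_, k, rfl⟩
    have h5 := J_pre z x hxz
    obtain ⟨N, hN⟩ := rhoW_iter_pre k b z.length
    rw [← hb] at h5
    rw [h5] at hN
    rw [hN] at hk
    have h6 := pre_prefix_eq hk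
    rw [length_pre] at h6
    have h7 := val_close n _ _ (pre_eq_iff h6)
    rw [(beta_spec hy).2] at h7
    rw [hR k]
    exact h7
  constructor
  · rw [IsMeagre, compl_compl]
    exact hres
  · intro h
    have h1 : Dense (E ∩ Eᶜ) := dense_of_mem_residual (inter_mem hres h)
    rw [inter_compl_self] at h1
    obtain ⟨y, -, hy⟩ := h1.inter_open_nonempty univ isOpen_univ ⟨0, mem_univ _⟩
    exact hy

end Pool.Agent.Results.MP_7df46e_an.ComeagreDenseOrbits
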